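import Mathlib

set_option autoImplicit false

open scoped InnerProductSpace
open Finset

namespace Pool.Agent.Lib.P932050

/-- Euclidean space of dimension `d`. -/
abbrev EE (d : ℕ) := EuclideanSpace ℝ (Fin d)

/-- A system of rank-`k` orthogonal projections `P i`, given by orthonormal families `b i`,
which is pairwise equi-isoclinic with parameter `α`. -/
structure Sys (d k : ℕ) (ι : Type) (α : ℝ) where
  P : ι → EE d → EE d
  b : ι → Fin k → EE d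
  hb : ∀ i, Orthonormal ℝ (b i)
  hP : ∀ i x, P i x = ∑ m, ⟪b i m, x⟫_ℝ • b i m
  hiso : ∀ i j, i ≠ j → ∀ x, ‖P j (P i x)‖ = α * ‖P i x‖

variable {d k : ℕ} {ι : Type} {α : ℝ}

namespace Sys

variable (Z : Sys d k ι α)

lemma P_b (i : ι) (m : Fin k) : Z.P i (Z.b i m) = Z.b i m := by
  rw [Z.hP]
  have h := Z.hb i
  rw [orthonormal_iff_ite] at h
  rw [Finset.sum_eq_single m]
  · rw [h m m]; simp
  · intro m' _ hm'
    rw [h m' m]; simp [hm']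
  · simp

lemma inner_left (i : ι) (x y : EE d) : ⟪Z.P i x, y⟫_ℝ = ⟪x, Z.P i y⟫_ℝ := by
  rw [Z.hP, Z.hP, sum_inner, inner_sum]
  refine Finset.sum_congr rfl fun m _ => ?_
  rw [inner_smul_left, inner_smul_right]
  simp only [conj_trivial]
  rw [real_inner_comm x (Z.b i m)]
  ring

lemma P_add (i : ι) (x y : EE d) : Z.P i (x + y) = Z.P i x + Z.P i y := by
  simp only [Z.hP, inner_add_right, add_smul, Finset.sum_add_distrib]

lemma P_smul (i : ι) (c : ℝ) (x : EE d) : Z.P i (c • x) = c • Z.P i x := by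
  simp only [Z.hP, inner_smul_right, mul_smul, Finset.smul_sum]

lemma P_sum {κ : Type} (s : Finset κ) (i : ι) (f : κ → EE d) :
    Z.P i (∑ m ∈ s, f m) = ∑ m ∈ s, Z.P i (f m) := by
  simp only [Z.hP, inner_sum, Finset.sum_smul]
  rw [Finset.sum_comm]

lemma P_idem (i : ι) (x : EE d) : Z.P i (Z.P i x) = Z.P i x := by
  conv_lhs => rw [Z.hP i x]
  rw [Z.P_sum]
  rw [Z.hP i x]
  refine Finset.sum_congr rfl fun m _ => ?_
  rw [Z.P_smul, Z.P_b]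

lemma inner_PP (i : ι) (x y : EE d) : ⟪Z.P i x, Z.P i y⟫_ℝ = ⟪x, Z.P i y⟫_ℝ := by
  rw [Z.inner_left, Z.P_idem]

lemma norm_sq_P (i : ι) (x : EE d) : ‖Z.P i x‖ ^ 2 = ⟪x, Z.P i x⟫_ℝ := by
  rw [← real_inner_self_eq_norm_sq, Z.inner_PP]

lemma sum_inner_b_sq (i : ι) (x : EE d) : ∑ m, ⟪x, Z.b i m⟫_ℝ ^ 2 = ‖Z.P i x‖ ^ 2 := by
  rw [Z.norm_sq_P]
  conv_rhs => rw [Z.hP, inner_sum]
  refine Finset.sum_congr rfl fun m _ => ?_
  rw [inner_smul_right, real_inner_comm x (Z.b i m)]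
  ring

/-- Hilbert-Schmidt inner product of two of the projections. -/
lemma hs_eq (i j : ι) :
    ∑ l, ⟪Z.P i (EuclideanSpace.basisFun (Fin d) ℝ l),
      Z.P j (EuclideanSpace.basisFun (Fin d) ℝ l)⟫_ℝ = ∑ m, ‖Z.P j (Z.b i m)‖ ^ 2 := by
  set e := EuclideanSpace.basisFun (Fin d) ℝ with he
  calc ∑ l, ⟪Z.P i (e l), Z.P j (e l)⟫_ℝ
      = ∑ l, ∑ m, ⟪Z.b i m, e l⟫_ℝ * ⟪e l, Z.P j (Z.b i m)⟫_ℝ := by
        refine Finset.sum_congr rfl fun l _ => ?_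
        conv_lhs => rw [Z.hP i, sum_inner]
        refine Finset.sum_congr rfl fun m _ => ?_
        rw [inner_smul_left]
        simp only [conj_trivial]
        rw [← Z.inner_left j (Z.b i m) (e l), real_inner_comm (Z.P j (Z.b i m)) (e l)]
    _ = ∑ m, ∑ l, ⟪Z.b i m, e l⟫_ℝ * ⟪e l, Z.P j (Z.b i m)⟫_ℝ := Finset.sum_comm
    _ = ∑ m, ‖Z.P j (Z.b i m)‖ ^ 2 := by
        refine Finset.sum_congr rfl fun m _ => ?_
        rw [OrthonormalBasis.sum_inner_mul_inner, Z.norm_sq_P]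

lemma norm_b (i : ι) (m : Fin k) : ‖Z.b i m‖ = 1 := (Z.hb i).1 m

lemma hs_self (i : ι) :
    ∑ l, ⟪Z.P i (EuclideanSpace.basisFun (Fin d) ℝ l),
      Z.P i (EuclideanSpace.basisFun (Fin d) ℝ l)⟫_ℝ = k := by
  rw [Z.hs_eq]
  simp [Z.P_b, Z.norm_b]

lemma hs_ne (i j : ι) (hij : i ≠ j) :
    ∑ l, ⟪Z.P i (EuclideanSpace.basisFun (Fin d) ℝ l),
      Z.P j (EuclideanSpace.basisFun (Fin d) ℝ l)⟫_ℝ = k * α ^ 2 := by
  rw [Z.hs_eq]
  have : ∀ m, ‖Z.P j (Z.b i m)‖ ^ 2 = α ^ 2 := by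
    intro m
    have := Z.hiso i j hij (Z.b i m)
    rw [Z.P_b, Z.norm_b] at this
    rw [this]; ring
  simp [this]

/-- An operator is bounded by its Hilbert-Schmidt norm. -/
lemma norm_sq_le_hs (A : EE d → EE d) (hA : ∀ (y : EE d), A y = ∑ l, (y l) • A (EuclideanSpace.basisFun (Fin d) ℝ l))
    (y : EE d) :
    ‖A y‖ ^ 2 ≤ ‖y‖ ^ 2 * ∑ l, ‖A (EuclideanSpace.basisFun (Fin d) ℝ l)‖ ^ 2 := by
  have h1 : ‖A y‖ ≤ ∑ l, |y l| * ‖A (EuclideanSpace.basisFun (Fin d) ℝ l)‖ := by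
    conv_lhs => rw [hA y]
    refine (norm_sum_le _ _).trans ?_
    refine Finset.sum_le_sum fun l _ => ?_
    rw [norm_smul, Real.norm_eq_abs]
  have h2 : (∑ l, |y l| * ‖A (EuclideanSpace.basisFun (Fin d) ℝ l)‖) ^ 2
      ≤ (∑ l, |y l| ^ 2) * ∑ l, ‖A (EuclideanSpace.basisFun (Fin d) ℝ l)‖ ^ 2 :=
    Finset.sum_mul_sq_le_sq_mul_sq _ _ _
  have h3 : ∑ l, |y l| ^ 2 = ‖y‖ ^ 2 := by
    rw [EuclideanSpace.norm_sq_eq]
    simp
  rw [h3] at h2
  refine le_trans ?_ h2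
  exact pow_le_pow_left₀ (norm_nonneg _) h1 2

variable [Fintype ι] [DecidableEq ι]

/-- Hilbert-Schmidt norm of a combination of the projections with coefficient sum zero. -/
lemma hs_comb (a : ι → ℝ) (ha : ∑ i, a i = 0) :
    ∑ l, ‖∑ i, a i • Z.P i (EuclideanSpace.basisFun (Fin d) ℝ l)‖ ^ 2
      = k * (1 - α ^ 2) * ∑ i, a i ^ 2 := by
  set e := EuclideanSpace.basisFun (Fin d) ℝ with he
  have h1 : ∀ l, ‖∑ i, a i • Z.P i (e l)‖ ^ 2
      = ∑ i, ∑ j, a i * a j * ⟪Z.P i (e l), Z.P j (e l)⟫_ℝ := by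
    intro l
    rw [← real_inner_self_eq_norm_sq, sum_inner]
    refine Finset.sum_congr rfl fun i _ => ?_
    rw [inner_sum]
    refine Finset.sum_congr rfl fun j _ => ?_
    rw [inner_smul_left, inner_smul_right]
    simp only [conj_trivial]
    ring
  have h2 : ∑ l, ‖∑ i, a i • Z.P i (e l)‖ ^ 2
      = ∑ i, ∑ j, a i * a j * ∑ l, ⟪Z.P i (e l), Z.P j (e l)⟫_ℝ := by
    simp only [h1, Finset.mul_sum]
    rw [Finset.sum_comm]
    refine Finset.sum_congr rfl fun i _ => ?_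
    rw [Finset.sum_comm]
  rw [h2]
  have h3 : ∀ i j, ∑ l, ⟪Z.P i (e l), Z.P j (e l)⟫_ℝ
      = k * α ^ 2 + if i = j then k * (1 - α ^ 2) else 0 := by
    intro i j
    by_cases hij : i = j
    · subst hij
      rw [Z.hs_self]; simp; ring
    · rw [Z.hs_ne i j hij]; simp [hij]
  simp only [h3, mul_add, Finset.sum_add_distrib]
  have h4 : ∑ i, ∑ j, a i * a j * (k * α ^ 2 : ℝ) = 0 := by
    have : ∀ i, ∑ j, a i * a j * (k * α ^ 2 : ℝ) = a i * (k * α ^ 2) * ∑ j, a j := by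
      intro i
      rw [Finset.mul_sum]
      refine Finset.sum_congr rfl fun j _ => ?_
      ring
    simp [this, ha]
  rw [h4, zero_add]
  simp only [mul_ite, mul_zero, Finset.sum_ite_eq, Finset.mem_univ, if_true]
  rw [Finset.mul_sum]
  refine Finset.sum_congr rfl fun i _ => ?_
  ring

omit [DecidableEq ι] in
lemma comb_expand (a : ι → ℝ) (y : EE d) :
    ∑ i, a i • Z.P i y = ∑ l, (y l) • ∑ i, a i • Z.P i (EuclideanSpace.basisFun (Fin d) ℝ l) := by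
  have hy : y = ∑ l, (y l) • EuclideanSpace.basisFun (Fin d) ℝ l := by
    conv_lhs => rw [← (EuclideanSpace.basisFun (Fin d) ℝ).sum_repr y]
    simp
  conv_lhs => rw [hy]
  simp only [Z.P_sum, Z.P_smul, Finset.smul_sum]
  rw [Finset.sum_comm]
  refine Finset.sum_congr rfl fun l _ => ?_
  refine Finset.sum_congr rfl fun i _ => ?_
  rw [smul_comm]

/-- The variance inequality. -/
lemma variance (hα : α ^ 2 ≤ 1) (x y : EE d) (c : ι → ℝ) (hc : ∀ i, c i = ⟪x, Z.P i y⟫_ℝ) :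
    (Fintype.card ι : ℝ) * ∑ i, c i ^ 2 - (∑ i, c i) ^ 2
      ≤ (Fintype.card ι : ℝ) * (k * (1 - α ^ 2) * (‖x‖ ^ 2 * ‖y‖ ^ 2)) := by
  rcases isEmpty_or_nonempty ι with hι | hι
  · simp
  have hN : (0 : ℝ) < Fintype.card ι := by exact_mod_cast Fintype.card_pos
  set N : ℝ := (Fintype.card ι : ℝ) with hNdef
  set cbar : ℝ := (∑ i, c i) / N with hcbar
  set a : ι → ℝ := fun i => c i - cbar with ha
  have ha0 : ∑ i, a i = 0 := by
    simp only [ha, Finset.sum_sub_distrib, Finset.sum_const, Finset.card_univ, nsmul_eq_mul]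
    rw [hcbar]; field_simp; simp [hNdef]
  set s : ℝ := ∑ i, a i ^ 2 with hs
  have hs1 : s = ∑ i, a i * c i := by
    have : ∑ i, a i * c i = ∑ i, a i ^ 2 + cbar * ∑ i, a i := by
      rw [Finset.mul_sum, ← Finset.sum_add_distrib]
      refine Finset.sum_congr rfl fun i _ => ?_
      simp only [ha]; ring
    rw [this, ha0]; simp [hs]
  have hs2 : s = (∑ i, c i ^ 2) - (∑ i, c i) ^ 2 / N := by
    have : s = ∑ i, c i ^ 2 - 2 * cbar * ∑ i, c i + N * cbar ^ 2 := by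
      rw [hs, Finset.mul_sum, ← Finset.sum_sub_distrib]
      have : N * cbar ^ 2 = ∑ i : ι, cbar ^ 2 := by
        simp [hNdef]
      rw [this, ← Finset.sum_add_distrib]
      refine Finset.sum_congr rfl fun i _ => ?_
      simp only [ha]; ring
    rw [this, hcbar]; field_simp; ring
  have hs0 : 0 ≤ s := Finset.sum_nonneg fun i _ => sq_nonneg _
  have hinner : s = ⟪x, ∑ i, a i • Z.P i y⟫_ℝ := by
    rw [hs1, inner_sum]
    refine Finset.sum_congr rfl fun i _ => ?_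
    rw [inner_smul_right, hc]
  have hA := norm_sq_le_hs (d := d) (fun y => ∑ i, a i • Z.P i y) (fun y => Z.comb_expand a y) y
  rw [Z.hs_comb a ha0] at hA
  have h1 : s ^ 2 ≤ ‖x‖ ^ 2 * (‖y‖ ^ 2 * (k * (1 - α ^ 2) * s)) := by
    have h2 : |s| ≤ ‖x‖ * ‖∑ i, a i • Z.P i y‖ := by
      conv_lhs => rw [hinner]
      exact abs_real_inner_le_norm _ _
    calc s ^ 2 = |s| ^ 2 := (sq_abs s).symm
      _ ≤ (‖x‖ * ‖∑ i, a i • Z.P i y‖) ^ 2 := pow_le_pow_left₀ (abs_nonneg _) h2 2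
      _ = ‖x‖ ^ 2 * ‖∑ i, a i • Z.P i y‖ ^ 2 := by ring
      _ ≤ _ := by
        refine mul_le_mul_of_nonneg_left ?_ (sq_nonneg _)
        simpa [hs] using hA
  have h3 : s ≤ k * (1 - α ^ 2) * (‖x‖ ^ 2 * ‖y‖ ^ 2) := by
    rcases hs0.eq_or_lt with h0 | h0
    · rw [← h0]
      have : 0 ≤ 1 - α ^ 2 := by linarith
      positivity
    · have : s * s ≤ (k * (1 - α ^ 2) * (‖x‖ ^ 2 * ‖y‖ ^ 2)) * s := by nlinarith [h1]
      exact le_of_mul_le_mul_right this h0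
  have h4 : N * ∑ i, c i ^ 2 - (∑ i, c i) ^ 2 = N * s := by
    rw [hs2]; field_simp
  rw [h4]
  exact mul_le_mul_of_nonneg_left h3 hN.le

omit [DecidableEq ι] in
lemma card_sum_const (c : ℝ) : ∑ _i : ι, c = (Fintype.card ι : ℝ) * c := by
  simp

/-- The sum operator. -/
noncomputable def T (x : EE d) : EE d := ∑ i, Z.P i x

omit [DecidableEq ι] in
lemma inner_T (x y : EE d) : ⟪Z.T x, y⟫_ℝ = ⟪x, Z.T y⟫_ℝ := by
  simp only [T, sum_inner, inner_sum, Z.inner_left]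

lemma row (i : ι) (x : EE d) :
    ∑ j, ‖Z.P j (Z.P i x)‖ ^ 2 = (1 + ((Fintype.card ι : ℝ) - 1) * α ^ 2) * ‖Z.P i x‖ ^ 2 := by
  have h : ∀ j, ‖Z.P j (Z.P i x)‖ ^ 2
      = α ^ 2 * ‖Z.P i x‖ ^ 2 + if i = j then (1 - α ^ 2) * ‖Z.P i x‖ ^ 2 else 0 := by
    intro j
    by_cases hij : i = j
    · subst hij
      rw [Z.P_idem]; simp; ring
    · rw [Z.hiso i j hij]; simp [hij]; ring
  simp only [h, Finset.sum_add_distrib, card_sum_const, Finset.sum_ite_eq, Finset.mem_univ,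
    if_true]
  ring

/-- First key inequality. -/
lemma key1 (hα : α ^ 2 ≤ 1) (u : EE d) :
    (Fintype.card ι : ℝ) * ∑ j, ∑ i, ‖Z.P j (Z.P i u)‖ ^ 2 - ∑ j, ‖Z.P j (Z.T u)‖ ^ 2
      ≤ (Fintype.card ι : ℝ) * (k * (1 - α ^ 2) * ‖u‖ ^ 2) * (k * Fintype.card ι) := by
  set N : ℝ := (Fintype.card ι : ℝ) with hNdef
  have h1 : ∀ j m, N * ∑ i, ⟪u, Z.P i (Z.b j m)⟫_ℝ ^ 2 - (∑ i, ⟪u, Z.P i (Z.b j m)⟫_ℝ) ^ 2
      ≤ N * (k * (1 - α ^ 2) * ‖u‖ ^ 2) := by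
    intro j m
    have := Z.variance hα u (Z.b j m) (fun i => ⟪u, Z.P i (Z.b j m)⟫_ℝ) (fun i => rfl)
    rw [Z.norm_b] at this
    simpa using this
  have h2 : ∑ j, ∑ m, (N * ∑ i, ⟪u, Z.P i (Z.b j m)⟫_ℝ ^ 2 - (∑ i, ⟪u, Z.P i (Z.b j m)⟫_ℝ) ^ 2)
      ≤ ∑ j : ι, ∑ m : Fin k, N * (k * (1 - α ^ 2) * ‖u‖ ^ 2) :=
    Finset.sum_le_sum fun j _ => Finset.sum_le_sum fun m _ => h1 j m
  have h3 : ∑ j : ι, ∑ m : Fin k, N * (k * (1 - α ^ 2) * ‖u‖ ^ 2)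
      = N * (k * (1 - α ^ 2) * ‖u‖ ^ 2) * (k * N) := by
    simp only [Finset.sum_const, Finset.card_univ, Fintype.card_fin, nsmul_eq_mul]
    rw [hNdef]; ring
  have h4 : ∀ j, ∑ m, (N * ∑ i, ⟪u, Z.P i (Z.b j m)⟫_ℝ ^ 2 - (∑ i, ⟪u, Z.P i (Z.b j m)⟫_ℝ) ^ 2)
      = N * (∑ i, ‖Z.P j (Z.P i u)‖ ^ 2) - ‖Z.P j (Z.T u)‖ ^ 2 := by
    intro j
    rw [Finset.sum_sub_distrib, ← Finset.mul_sum, Finset.sum_comm]
    congr 1
    · congr 1
      refine Finset.sum_congr rfl fun i _ => ?_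
      rw [← Z.sum_inner_b_sq]
      refine Finset.sum_congr rfl fun m _ => ?_
      rw [Z.inner_left]
    · rw [← Z.sum_inner_b_sq]
      refine Finset.sum_congr rfl fun m _ => ?_
      rw [Z.inner_T]
      simp only [T, inner_sum]
  rw [h3] at h2
  simp only [h4, Finset.sum_sub_distrib, ← Finset.mul_sum] at h2
  linarith

omit [Fintype ι] [DecidableEq ι] in
lemma inner_PP_le (i j : ι) (hij : i ≠ j) (x y : EE d) :
    |⟪Z.P i x, Z.P j y⟫_ℝ| ≤ α * (‖Z.P i x‖ * ‖Z.P j y‖) := by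
  have h1 : ⟪Z.P i x, Z.P j y⟫_ℝ = ⟪Z.P j (Z.P i x), Z.P j y⟫_ℝ := by
    rw [Z.inner_PP]
  rw [h1]
  refine (abs_real_inner_le_norm _ _).trans ?_
  rw [Z.hiso i j hij]
  linarith

/-- The sum of the projections has norm at most `1 + α (N - 1)`. -/
lemma opBound [Nonempty ι] (hα : 0 ≤ α) (z : EE d) :
    ∑ j, ‖Z.P j z‖ ^ 2 ≤ (1 + α * ((Fintype.card ι : ℝ) - 1)) * ‖z‖ ^ 2 := by
  set N : ℝ := (Fintype.card ι : ℝ) with hNdef
  have hN : (1 : ℝ) ≤ N := by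
    rw [hNdef]; exact_mod_cast Fintype.card_pos
  set s : ℝ := ∑ j, ‖Z.P j z‖ ^ 2 with hs
  have hs0 : 0 ≤ s := Finset.sum_nonneg fun i _ => sq_nonneg _
  have h1 : s = ⟪z, Z.T z⟫_ℝ := by
    rw [hs, T, inner_sum]
    exact Finset.sum_congr rfl fun i _ => Z.norm_sq_P i z
  have h2 : ‖Z.T z‖ ^ 2 ≤ (1 + α * (N - 1)) * s := by
    have e1 : ‖Z.T z‖ ^ 2 = ∑ i, ∑ j, ⟪Z.P i z, Z.P j z⟫_ℝ := by
      rw [← real_inner_self_eq_norm_sq, T, sum_inner]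
      refine Finset.sum_congr rfl fun i _ => ?_
      rw [inner_sum]
    have e2 : ∀ i j, ⟪Z.P i z, Z.P j z⟫_ℝ
        ≤ α * (‖Z.P i z‖ * ‖Z.P j z‖) + if i = j then (1 - α) * ‖Z.P i z‖ ^ 2 else 0 := by
      intro i j
      by_cases hij : i = j
      · subst hij
        rw [real_inner_self_eq_norm_sq]; simp; linarith [sq (‖Z.P i z‖)]
      · simp only [hij, if_false, add_zero]
        exact (le_abs_self _).trans (Z.inner_PP_le i j hij z z)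
    have e3 : ‖Z.T z‖ ^ 2 ≤ α * (∑ i, ‖Z.P i z‖) ^ 2 + (1 - α) * s := by
      rw [e1]
      refine (Finset.sum_le_sum fun i _ => Finset.sum_le_sum fun j _ => e2 i j).trans ?_
      simp only [Finset.sum_add_distrib, Finset.sum_ite_eq, Finset.mem_univ, if_true]
      rw [sq, Finset.sum_mul_sum, hs]
      simp only [Finset.mul_sum]
      exact le_refl _
    have e4 : (∑ i, ‖Z.P i z‖) ^ 2 ≤ N * s := by
      have := Finset.sum_mul_sq_le_sq_mul_sq (Finset.univ : Finset ι) (fun _ => (1 : ℝ))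
        (fun i => ‖Z.P i z‖)
      simp only [one_mul, one_pow, Finset.sum_const, Finset.card_univ, nsmul_eq_mul, mul_one]
        at this
      simpa [hs, hNdef] using this
    nlinarith [mul_le_mul_of_nonneg_left e4 hα]
  have h3 : s ^ 2 ≤ ‖z‖ ^ 2 * ((1 + α * (N - 1)) * s) := by
    have h2' : |s| ≤ ‖z‖ * ‖Z.T z‖ := by
      conv_lhs => rw [h1]
      exact abs_real_inner_le_norm _ _
    calc s ^ 2 = |s| ^ 2 := (sq_abs s).symm
      _ ≤ (‖z‖ * ‖Z.T z‖) ^ 2 := pow_le_pow_left₀ (abs_nonneg _) h2' 2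
      _ = ‖z‖ ^ 2 * ‖Z.T z‖ ^ 2 := by ring
      _ ≤ _ := mul_le_mul_of_nonneg_left h2 (sq_nonneg _)
  rcases hs0.eq_or_lt with h0 | h0
  · rw [← h0]
    have : 0 ≤ α * (N - 1) := mul_nonneg hα (by linarith)
    positivity
  · have : s * s ≤ ((1 + α * (N - 1)) * ‖z‖ ^ 2) * s := by nlinarith [h3]
    exact le_of_mul_le_mul_right this h0

/-- Second key inequality: every unit vector of a member is strongly expanded by `T`. -/
lemma key2 [Nonempty ι] (hα0 : 0 ≤ α) (hα : α ^ 2 ≤ 1) (i₀ : ι) (u : EE d) (hu : Z.P i₀ u = u)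
    (hu1 : ‖u‖ = 1) :
    (Fintype.card ι : ℝ) * (1 + ((Fintype.card ι : ℝ) - 1) * α ^ 2) ^ 2
        - k ^ 2 * (1 - α ^ 2) * (Fintype.card ι : ℝ) ^ 2
      ≤ (1 + α * ((Fintype.card ι : ℝ) - 1)) * ‖Z.T u‖ ^ 2 := by
  have h1 := Z.key1 hα u
  have h2 := Z.opBound hα0 (Z.T u)
  set N : ℝ := (Fintype.card ι : ℝ) with hNdef
  have h3 : ∑ j, ∑ i, ‖Z.P j (Z.P i u)‖ ^ 2 = (1 + (N - 1) * α ^ 2) ^ 2 := by
    rw [Finset.sum_comm]
    simp only [Z.row]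
    rw [← Finset.mul_sum]
    have := Z.row i₀ u
    rw [hu, hu1] at this
    rw [this]; ring
  rw [h3, hu1] at h1
  nlinarith

end Sys

end Pool.Agent.Lib.P932050
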