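import Pool.Agent.Lib.P932050.Rank

set_option autoImplicit false

open scoped InnerProductSpace
open Finset

namespace Pool.Agent.Lib.P932050

namespace Sys

variable {d k : ℕ} {ι : Type} {α : ℝ} (Z : Sys d k ι α) [Fintype ι] [DecidableEq ι]

lemma inner_u_Tu (i₀ : ι) (u : EE d) (hu : Z.P i₀ u = u) (hu1 : ‖u‖ = 1) :
    ⟪u, Z.T u⟫_ℝ = 1 + ((Fintype.card ι : ℝ) - 1) * α ^ 2 := by
  have := Z.row i₀ u
  rw [hu, hu1] at this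
  rw [T, inner_sum]
  simp only [← Z.norm_sq_P]
  rw [this]; ring

lemma sum_v (i₀ : ι) (u : EE d) (hu : Z.P i₀ u = u) :
    ∑ i : {i : ι // i ≠ i₀}, Z.P i u = Z.T u - u := by
  have := Fintype.sum_eq_add_sum_subtype_ne (fun i => Z.P i u) i₀
  rw [T, this, hu]; simp

lemma norm_v (hα : 0 ≤ α) (i₀ : ι) (u : EE d) (hu : Z.P i₀ u = u) (hu1 : ‖u‖ = 1)
    (i : {i : ι // i ≠ i₀}) : ‖Z.P i u‖ = α := by
  have := Z.hiso i₀ i i.2.symm u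
  rw [hu, hu1] at this
  linarith

lemma inner_v_le (hα : 0 ≤ α) (i₀ : ι) (u : EE d) (hu : Z.P i₀ u = u) (hu1 : ‖u‖ = 1)
    (i j : {i : ι // i ≠ i₀}) (hij : i ≠ j) : |⟪Z.P i u, Z.P j u⟫_ℝ| ≤ α ^ 3 := by
  have := Z.inner_PP_le i j (fun h => hij (Subtype.ext h)) u u
  rw [Z.norm_v hα i₀ u hu hu1, Z.norm_v hα i₀ u hu hu1] at this
  linarith [this, show α * (α * α) = α ^ 3 by ring]

lemma norm_Tu_sub (i₀ : ι) (u : EE d) (hu : Z.P i₀ u = u) (hu1 : ‖u‖ = 1) :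
    ‖Z.T u - u‖ ^ 2 = ‖Z.T u‖ ^ 2 - 2 * (1 + ((Fintype.card ι : ℝ) - 1) * α ^ 2) + 1 := by
  rw [norm_sub_sq_real, real_inner_comm, Z.inner_u_Tu i₀ u hu hu1, hu1]
  ring

/-- Quantitative lower bound for `‖T u‖²`. -/
lemma norm_Tu_lower [Nonempty ι] (hα0 : 0 < α) (hα : α ≤ 1) (i₀ : ι) (u : EE d)
    (hu : Z.P i₀ u = u) (hu1 : ‖u‖ = 1) :
    α ^ 3 * ((Fintype.card ι : ℝ) - 1) ^ 2 - ((k ^ 2 + 1) / α) * (Fintype.card ι : ℝ)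
      ≤ ‖Z.T u‖ ^ 2 := by
  have hα2 : α ^ 2 ≤ 1 := by nlinarith
  have h1 := Z.key2 hα0.le hα2 i₀ u hu hu1
  have hN : (1 : ℝ) ≤ (Fintype.card ι : ℝ) := by exact_mod_cast Fintype.card_pos
  obtain ⟨n, hn⟩ : ∃ n : ℝ, (Fintype.card ι : ℝ) = n + 1 := ⟨_, (sub_add_cancel _ 1).symm⟩
  rw [hn] at h1 hN ⊢
  have hn0 : 0 ≤ n := by linarith
  simp only [add_sub_cancel_right] at h1 ⊢
  set X := ‖Z.T u‖ ^ 2 with hX
  have hL : 0 < 1 + α * n := by positivity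
  have hkey : (α ^ 3 * n ^ 2 - ((k : ℝ) ^ 2 + 1) / α * (n + 1)) * (1 + α * n)
      ≤ (1 + α * n) * X := by
    refine le_trans ?_ h1
    have e1 : ((k : ℝ) ^ 2 + 1) / α * (n + 1) * (1 + α * n)
        = ((k : ℝ) ^ 2 + 1) * (n + 1) * (1 / α + n) := by
      field_simp
    have e2 : (1 : ℝ) ≤ 1 / α := by
      rw [le_div_iff₀ hα0]; linarith
    have e3 : ((k : ℝ) ^ 2 + 1) * (n + 1) * (1 + n) ≤ ((k : ℝ) ^ 2 + 1) * (n + 1) * (1 / α + n) := by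
      refine mul_le_mul_of_nonneg_left (by linarith) (by positivity)
    have e4 : (α ^ 3 * n ^ 2 - ((k : ℝ) ^ 2 + 1) / α * (n + 1)) * (1 + α * n)
        = α ^ 3 * n ^ 2 * (1 + α * n) - ((k : ℝ) ^ 2 + 1) / α * (n + 1) * (1 + α * n) := by ring
    rw [e4, e1]
    have e5 : α ^ 3 * n ^ 2 ≤ n ^ 2 := by
      have : α ^ 3 ≤ 1 := pow_le_one₀ hα0.le hα
      nlinarith [sq_nonneg n]
    have e6 : (n + 1) * (n * α ^ 2) ^ 2 ≤ (n + 1) * (1 + n * α ^ 2) ^ 2 := by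
      refine mul_le_mul_of_nonneg_left ?_ (by linarith)
      refine pow_le_pow_left₀ (by positivity) (by linarith) 2
    have e7 : (k : ℝ) ^ 2 * (1 - α ^ 2) * (n + 1) ^ 2 ≤ (k : ℝ) ^ 2 * (n + 1) ^ 2 := by
      have : (0 : ℝ) ≤ (k : ℝ) ^ 2 * (n + 1) ^ 2 * α ^ 2 := by positivity
      nlinarith
    have e8 : 0 ≤ n ^ 2 * α ^ 4 := by positivity
    nlinarith
  have := le_of_mul_le_mul_right (by linarith [hkey, mul_comm (1 + α * n) X] : (α ^ 3 * n ^ 2 - ((k : ℝ) ^ 2 + 1) / α * (n + 1)) * (1 + α * n) ≤ X * (1 + α * n)) hL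
  exact this

end Sys

end Pool.Agent.Lib.P932050
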