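import Pool.Agent.Lib.P932050.Main

set_option autoImplicit false

open scoped InnerProductSpace
open Finset

namespace Pool.Agent.Lib.P932050

/-- Scaling of the isoclinic condition. -/
lemma iso_scale {d : ℕ} (U V : Submodule ℝ (EE d)) (α : ℝ)
    (h : ∀ u ∈ U, ‖u‖ = 1 → ‖V.orthogonalProjectionOnto u‖ = α) (u : EE d) (hu : u ∈ U) :
    ‖V.starProjection u‖ = α * ‖u‖ := by
  by_cases hu0 : u = 0
  · simp [hu0]
  have hn : ‖u‖ ≠ 0 := norm_ne_zero_iff.mpr hu0
  have h1 := h ((‖u‖)⁻¹ • u) (U.smul_mem _ hu) (by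
    rw [norm_smul, norm_inv, norm_norm, inv_mul_cancel₀ hn])
  rw [map_smul, norm_smul, norm_inv, norm_norm] at h1
  have h2 : ‖V.starProjection u‖ = ‖V.orthogonalProjectionOnto u‖ := by
    rw [Submodule.starProjection_apply]; rfl
  rw [h2, ← h1]
  field_simp

lemma exists_basis {d : ℕ} (U : Submodule ℝ (EE d)) :
    ∃ b : Fin (Module.finrank ℝ U) → EE d, Orthonormal ℝ b ∧
      ∀ x, U.starProjection x = ∑ m, ⟪b m, x⟫_ℝ • b m := by
  refine ⟨fun m => (stdOrthonormalBasis ℝ U m : EE d), ?_, ?_⟩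
  · have h := (stdOrthonormalBasis ℝ U).orthonormal
    rw [orthonormal_iff_ite] at h ⊢
    intro i j
    rw [← h i j]
    rfl
  · intro x
    rw [(stdOrthonormalBasis ℝ U).starProjection_eq_sum_rankOne]
    simp [InnerProductSpace.rankOne_apply]

lemma exists_basis' {d k : ℕ} (U : Submodule ℝ (EE d)) (hk : Module.finrank ℝ U = k) :
    ∃ b : Fin k → EE d, Orthonormal ℝ b ∧ ∀ x, U.starProjection x = ∑ m, ⟪b m, x⟫_ℝ • b m := by
  subst hk
  exact exists_basis U

/-- The system attached to a family of subspaces. -/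
noncomputable def mkSys {d k : ℕ} {α : ℝ} (S : Finset (Submodule ℝ (EE d)))
    (hk : ∀ U ∈ S, Module.finrank ℝ U = k)
    (hiso : ∀ U ∈ S, ∀ V ∈ S, U ≠ V → ∀ u ∈ U, ‖u‖ = 1 → ‖V.orthogonalProjectionOnto u‖ = α) :
    Sys d k {U // U ∈ S} α where
  P := fun i x => i.1.starProjection x
  b := fun i => (exists_basis' i.1 (hk i i.2)).choose
  hb := fun i => (exists_basis' i.1 (hk i i.2)).choose_spec.1
  hP := fun i => (exists_basis' i.1 (hk i i.2)).choose_spec.2
  hiso := fun i j hij x =>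
    iso_scale i.1 j.1 α (hiso i.1 i.2 j.1 j.2 (fun h => hij (Subtype.ext h)))
      (i.1.starProjection x) (Submodule.starProjection_apply_mem i.1 x)

/-- Case `α = 0`. -/
lemma case_zero {d k : ℕ} (hk1 : 1 ≤ k) (S : Finset (Submodule ℝ (EE d)))
    (hk : ∀ U ∈ S, Module.finrank ℝ U = k)
    (hiso : ∀ U ∈ S, ∀ V ∈ S, U ≠ V → ∀ u ∈ U, ‖u‖ = 1 → ‖V.orthogonalProjectionOnto u‖ = 0) :
    (S.card : ℝ) ≤ d := by
  set Z := mkSys S hk hiso with hZ
  have hon : Orthonormal ℝ (fun i : {U // U ∈ S} => Z.b i ⟨0, by omega⟩) := by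
    constructor
    · intro i; exact Z.norm_b i _
    · intro i j hij
      have h1 := Z.hiso i j hij (Z.b i ⟨0, by omega⟩)
      rw [Z.P_b, zero_mul, norm_eq_zero] at h1
      show ⟪Z.b i ⟨0, by omega⟩, Z.b j ⟨0, by omega⟩⟫_ℝ = 0
      rw [← Z.P_b j, ← Z.inner_left, h1, inner_zero_left]
  have := hon.linearIndependent.fintype_card_le_finrank
  simp only [Fintype.card_coe, finrank_euclideanSpace, Fintype.card_fin] at this
  exact_mod_cast this

/-- Case `α = 1`. -/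
lemma case_one {d k : ℕ} (S : Finset (Submodule ℝ (EE d)))
    (hk : ∀ U ∈ S, Module.finrank ℝ U = k)
    (hiso : ∀ U ∈ S, ∀ V ∈ S, U ≠ V → ∀ u ∈ U, ‖u‖ = 1 → ‖V.orthogonalProjectionOnto u‖ = 1) :
    S.card ≤ 1 := by
  rw [Finset.card_le_one]
  intro U hU V hV
  by_contra hne
  have hle : U ≤ V := by
    intro u hu
    have h1 := iso_scale U V 1 (hiso U hU V hV hne) u hu
    rw [one_mul] at h1
    exact (Submodule.mem_iff_norm_starProjection V u).mpr h1
  have : U = V := Submodule.eq_of_le_of_finrank_eq hle (by rw [hk U hU, hk V hV])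
  exact hne this

/-- The quantitative main theorem. -/
theorem main (k : ℕ) (hk1 : 1 ≤ k) (α : ℝ) (hα0 : 0 ≤ α) (hα1 : α ≤ 1) :
    ∃ C : ℝ, 0 ≤ C ∧ ∀ d : ℕ, k ≤ d → ∀ S : Finset (Submodule ℝ (EuclideanSpace ℝ (Fin d))),
      (∀ U ∈ S, Module.finrank ℝ U = k) →
      (∀ U ∈ S, ∀ V ∈ S, U ≠ V →
        ∀ u ∈ U, ‖u‖ = 1 → ‖V.orthogonalProjectionOnto u‖ = α) →
      (S.card : ℝ) ≤ 2 * d + C * √d := by
  rcases hα0.eq_or_lt with h0 | h0
  · subst h0
    refine ⟨0, le_refl _, ?_⟩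
    intro d _ S hS hiso
    have := case_zero hk1 S hS hiso
    have h2 : (0 : ℝ) ≤ d := Nat.cast_nonneg d
    linarith
  rcases hα1.eq_or_lt with h1 | h1
  · subst h1
    refine ⟨0, le_refl _, ?_⟩
    intro d hd S hS hiso
    have := case_one S hS hiso
    have h3 : (S.card : ℝ) ≤ 1 := by exact_mod_cast this
    have h2 : (1 : ℝ) ≤ d := by exact_mod_cast hk1.trans hd
    linarith
  obtain ⟨C, hC0, hC⟩ := main_sys k α h0 h1
  refine ⟨C, hC0, ?_⟩
  intro d hd S hS hiso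
  have := hC d {U // U ∈ S} hk1 (hk1.trans hd) (mkSys S hS hiso)
  simpa using this

end Pool.Agent.Lib.P932050
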