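import Mathlib

set_option autoImplicit false

open Finset

namespace Pool.Agent.Lib.P932050

variable {κ : Type} [Fintype κ]

/-- The quadratic form `g |x|² - xᵀ δ x`. -/
noncomputable def Q (g : ℝ) (δ : κ → κ → ℝ) (x : κ → ℝ) : ℝ :=
  g * ∑ i, x i ^ 2 - ∑ i, ∑ j, x i * x j * δ i j

lemma Q_shift (g : ℝ) (δ : κ → κ → ℝ) (hs : ∀ i j, δ i j = δ j i) (y : κ → ℝ) (t : ℝ) :
    Q g δ (fun i => y i - t) = Q g δ y - 2 * t * (g * ∑ i, y i - ∑ i, y i * ∑ j, δ i j)
      + t ^ 2 * (g * (Fintype.card κ : ℝ) - ∑ i, ∑ j, δ i j) := by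
  unfold Q
  have e1 : ∑ i, (y i - t) ^ 2 = ∑ i, y i ^ 2 - 2 * t * ∑ i, y i + t ^ 2 * (Fintype.card κ : ℝ) := by
    have : t ^ 2 * (Fintype.card κ : ℝ) = ∑ i : κ, t ^ 2 := by simp [mul_comm]
    rw [this, Finset.mul_sum, ← Finset.sum_sub_distrib, ← Finset.sum_add_distrib]
    refine Finset.sum_congr rfl fun i _ => ?_
    ring
  have e2 : ∑ i, ∑ j, (y i - t) * (y j - t) * δ i j
      = ∑ i, ∑ j, y i * y j * δ i j - t * (∑ i, ∑ j, y i * δ i j) - t * (∑ i, ∑ j, y j * δ i j)
        + t ^ 2 * ∑ i, ∑ j, δ i j := by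
    simp only [Finset.mul_sum, ← Finset.sum_sub_distrib, ← Finset.sum_add_distrib]
    refine Finset.sum_congr rfl fun i _ => Finset.sum_congr rfl fun j _ => ?_
    ring
  have e3 : ∑ i, ∑ j, y j * δ i j = ∑ i, ∑ j, y i * δ i j := by
    rw [Finset.sum_comm]
    refine Finset.sum_congr rfl fun i _ => Finset.sum_congr rfl fun j _ => ?_
    rw [hs j i]
  have e4 : ∑ i, ∑ j, y i * δ i j = ∑ i, y i * ∑ j, δ i j := by
    simp only [Finset.mul_sum]
  rw [e1, e2, e3, e4]
  ring

variable [DecidableEq κ]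

/-- The local inequality: a nonnegative symmetric matrix `δ` with zero diagonal such that
`g I - δ` is positive semidefinite on vectors of sum zero, with row sums at most `K` and total sum
at most `D n`, satisfies `∑ δ² ≤ g² n + O(K)`. -/
lemma local_ineq (δ : κ → κ → ℝ) (hs : ∀ i j, δ i j = δ j i) (hd : ∀ i, δ i i = 0)
    (hnn : ∀ i j, 0 ≤ δ i j) (g : ℝ) (hg : 0 < g)
    (hpsd : ∀ x : κ → ℝ, ∑ i, x i = 0 → 0 ≤ Q g δ x)
    (K D : ℝ) (hK0 : 0 ≤ K) (hD0 : 0 ≤ D) (hK : ∀ i, ∑ j, δ i j ≤ K)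
    (hD : ∑ i, ∑ j, δ i j ≤ D * (Fintype.card κ : ℝ)) :
    ∑ i, ∑ j, δ i j ^ 2 ≤ g ^ 2 * (Fintype.card κ : ℝ) + 2 * g * D + K * D * (6 + 4 * D / g) := by
  rcases isEmpty_or_nonempty κ with h | ⟨⟨i₀⟩⟩
  · simp only [Finset.univ_eq_empty, Finset.sum_empty, Fintype.card_eq_zero, Nat.cast_zero]
    positivity
  have hN : (0 : ℝ) < (Fintype.card κ : ℝ) := by
    have : Nonempty κ := ⟨i₀⟩
    exact_mod_cast Fintype.card_pos
  set n : ℝ := (Fintype.card κ : ℝ) with hn
  set r : κ → ℝ := fun i => ∑ j, δ i j with hr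
  have hr0 : ∀ i, 0 ≤ r i := fun i => Finset.sum_nonneg fun j _ => hnn i j
  have hrK : ∀ i, r i ≤ K := hK
  set R1 : ℝ := ∑ i, r i with hR1
  set R2 : ℝ := ∑ i, r i ^ 2 with hR2
  set R3 : ℝ := ∑ i, r i * ∑ j, δ i j * r j with hR3
  have hR1nn : 0 ≤ R1 := Finset.sum_nonneg fun i _ => hr0 i
  have hR2nn : 0 ≤ R2 := Finset.sum_nonneg fun i _ => sq_nonneg _
  have hR1D : R1 ≤ D * n := hD
  have hR2K : R2 ≤ K * R1 := by
    rw [hR2, hR1, Finset.mul_sum]
    refine Finset.sum_le_sum fun i _ => ?_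
    rw [sq]; exact mul_le_mul_of_nonneg_right (hrK i) (hr0 i)
  -- the bound on R3
  have hR3b : R3 ≤ (g + 2 * D) * R2 := by
    have h1 := hpsd (fun i => r i - R1 / n) (by
      rw [Finset.sum_sub_distrib]; simp [← hR1, ← hn]; field_simp; ring)
    rw [Q_shift g δ hs] at h1
    have h2 : Q g δ r = g * R2 - R3 := by
      unfold Q
      rw [hR3]
      congr 1
      refine Finset.sum_congr rfl fun i _ => ?_
      rw [Finset.mul_sum]
      refine Finset.sum_congr rfl fun j _ => ?_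
      ring
    have h3 : ∑ i, r i * ∑ j, δ i j = R2 := by
      rw [hR2]; exact Finset.sum_congr rfl fun i _ => by rw [sq]
    have h4 : ∑ i, ∑ j, δ i j = R1 := rfl
    rw [h2, h3, h4, ← hn] at h1
    -- h1 : 0 ≤ gR2 - R3 - 2 (R1/n)(gR1 - R2) + (R1/n)^2 (g n - R1)
    have h5 : R1 / n ≤ D := by rw [div_le_iff₀ hN]; exact hR1D
    have h6 : 0 ≤ R1 / n := div_nonneg hR1nn hN.le
    set ρ := R1 / n with hρ
    have h7 : R1 = ρ * n := by rw [hρ]; field_simp
    rw [h7] at h1
    have h8 : ρ * R2 ≤ D * R2 := mul_le_mul_of_nonneg_right h5 hR2nn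
    have h9 : 0 ≤ g * ρ ^ 2 * n := by positivity
    have h10 : 0 ≤ ρ ^ 3 * n := by positivity
    nlinarith
  -- the bound for each i
  have hSi : ∀ i, ∑ j, δ i j ^ 2 ≤ g ^ 2 + (2 * g / n) * ((1 + r i / g) * (r i + (∑ j, δ i j * r j) / g)) := by
    intro i
    set c : ℝ := 1 / g with hc
    have hc0 : 0 < c := by positivity
    set y : κ → ℝ := fun j => (if i = j then 1 else 0) + c * δ i j with hy
    set s : ℝ := 1 + c * r i with hsdef
    have hs0 : 0 < s := by
      have := mul_nonneg hc0.le (hr0 i); linarith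
    have hsy : ∑ j, y j = s := by
      simp only [hy, Finset.sum_add_distrib, ← Finset.mul_sum]
      simp [hsdef, hr]
    have h1 := hpsd (fun j => y j - s / n) (by
      rw [Finset.sum_sub_distrib, hsy]; simp [← hn]; field_simp; ring)
    rw [Q_shift g δ hs, hsy] at h1
    set S : ℝ := ∑ j, δ i j ^ 2 with hS
    have hS0 : 0 ≤ S := Finset.sum_nonneg fun i _ => sq_nonneg _
    set q : ℝ := r i + c * ∑ j, δ i j * r j with hq
    have h2 : ∑ j, y j * ∑ l, δ j l = q := by
      simp only [hy, add_mul, Finset.sum_add_distrib]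
      rw [hq, Finset.mul_sum]
      congr 1
      · simp [hr]
      · refine Finset.sum_congr rfl fun j _ => ?_
        rw [hr]; ring
    have h3 : ∑ j, y j ^ 2 = 1 + c ^ 2 * S := by
      have : ∀ j, y j ^ 2 = (if i = j then (1 + 2 * c * δ i j) else 0) + c ^ 2 * δ i j ^ 2 := by
        intro j
        simp only [hy]
        by_cases hij : i = j
        · simp [hij]; ring
        · simp [hij]; ring
      simp only [this, Finset.sum_add_distrib, Finset.sum_ite_eq, Finset.mem_univ, if_true,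
        ← Finset.mul_sum, hd]
      rw [hS]; ring
    have h4 : ∑ j, ∑ l, y j * y l * δ j l
        = 2 * c * S + c ^ 2 * ∑ j, ∑ l, δ i j * δ i l * δ j l := by
      have : ∀ j l, y j * y l * δ j l
          = (if i = j then (if i = l then δ j l else 0) else 0)
            + (if i = j then c * (δ i l * δ j l) else 0)
            + (if i = l then c * (δ i j * δ j l) else 0)
            + c ^ 2 * (δ i j * δ i l * δ j l) := by
        intro j l
        simp only [hy]
        split_ifs <;> ring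
      simp only [this, Finset.sum_add_distrib, ← Finset.mul_sum]
      have f1 : ∑ j, ∑ l, (if i = j then (if i = l then δ j l else 0) else 0) = 0 := by
        simp [hd]
      have f2 : ∑ j, ∑ l, (if i = j then c * (δ i l * δ j l) else 0) = c * S := by
        rw [Finset.sum_comm]
        simp only [Finset.sum_ite_eq, Finset.mem_univ, if_true]
        rw [hS, Finset.mul_sum]
        exact Finset.sum_congr rfl fun l _ => by ring
      have f3 : ∑ j, ∑ l, (if i = l then c * (δ i j * δ j l) else 0) = c * S := by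
        simp only [Finset.sum_ite_eq, Finset.mem_univ, if_true]
        rw [hS, Finset.mul_sum]
        refine Finset.sum_congr rfl fun l _ => ?_
        rw [hs l i]; ring
      rw [f1, f2, f3]; ring
    have h5 : 0 ≤ ∑ j, ∑ l, δ i j * δ i l * δ j l :=
      Finset.sum_nonneg fun j _ => Finset.sum_nonneg fun l _ =>
        mul_nonneg (mul_nonneg (hnn _ _) (hnn _ _)) (hnn _ _)
    have h6 : Q g δ y ≤ g - S / g := by
      unfold Q
      rw [h3, h4]
      have : g * (1 + c ^ 2 * S) - (2 * c * S + c ^ 2 * ∑ j, ∑ l, δ i j * δ i l * δ j l)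
          = g - S / g - c ^ 2 * ∑ j, ∑ l, δ i j * δ i l * δ j l := by
        rw [hc]; field_simp; ring
      rw [this]
      have := mul_nonneg (sq_nonneg c) h5
      linarith
    have h7 : ∑ i, ∑ j, δ i j = R1 := rfl
    rw [h2, h7, ← hn] at h1
    have h8 : 0 ≤ g - S / g + 2 * (s / n) * q := by
      have e1 : (s / n) ^ 2 * (g * n - R1) ≤ g * s ^ 2 / n := by
        have : (s / n) ^ 2 * (g * n - R1) = g * s ^ 2 / n - (s / n) ^ 2 * R1 := by
          field_simp
        rw [this]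
        have := mul_nonneg (sq_nonneg (s / n)) hR1nn
        linarith
      have e2 : 2 * (s / n) * (g * s - q) = 2 * (g * s ^ 2 / n) - 2 * (s / n) * q := by
        field_simp
      have e3 : 0 ≤ g * s ^ 2 / n := by positivity
      rw [e2] at h1
      linarith
    have h9 : S / g ≤ g + 2 * (s / n) * q := by linarith
    rw [div_le_iff₀ hg] at h9
    refine h9.trans (le_of_eq ?_)
    rw [hq, hsdef, hc]; field_simp
  have hsum : ∑ i, ∑ j, δ i j ^ 2 ≤ ∑ i, (g ^ 2 + (2 * g / n) * ((1 + r i / g) * (r i + (∑ j, δ i j * r j) / g))) :=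
    Finset.sum_le_sum fun i _ => hSi i
  have hq : ∑ i, (1 + r i / g) * (r i + (∑ j, δ i j * r j) / g)
      = R1 + 2 * R2 / g + R3 / g ^ 2 := by
    have e0 : ∑ i, ∑ j, δ i j * r j = R2 := by
      rw [Finset.sum_comm, hR2]
      refine Finset.sum_congr rfl fun j _ => ?_
      rw [← Finset.sum_mul, sq]
      congr 1
      exact Finset.sum_congr rfl fun i _ => hs i j
    have e1 : ∀ i, (1 + r i / g) * (r i + (∑ j, δ i j * r j) / g)
        = r i + (r i ^ 2) * (1 / g) + (∑ j, δ i j * r j) * (1 / g) + (r i * ∑ j, δ i j * r j) * (1 / g ^ 2) := by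
      intro i; field_simp; ring
    simp only [e1, Finset.sum_add_distrib, ← Finset.sum_mul]
    rw [e0, ← hR1, ← hR2, ← hR3]; ring
  rw [Finset.sum_add_distrib, ← Finset.mul_sum, hq] at hsum
  have hfin : (2 * g / n) * (R1 + 2 * R2 / g + R3 / g ^ 2) ≤ 2 * g * D + K * D * (6 + 4 * D / g) := by
    have a1 : R2 ≤ K * (D * n) := hR2K.trans (mul_le_mul_of_nonneg_left hR1D hK0)
    have a2 : R3 ≤ (g + 2 * D) * (K * (D * n)) :=
      hR3b.trans (mul_le_mul_of_nonneg_left a1 (by positivity))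
    have a3 : R1 + 2 * R2 / g + R3 / g ^ 2
        ≤ D * n + 2 * (K * (D * n)) / g + (g + 2 * D) * (K * (D * n)) / g ^ 2 := by
      gcongr
    refine (mul_le_mul_of_nonneg_left a3 (by positivity)).trans (le_of_eq ?_)
    field_simp
    ring
  have hc : ∑ _i : κ, g ^ 2 = g ^ 2 * n := by simp [hn, mul_comm]
  rw [hc] at hsum
  linarith

end Pool.Agent.Lib.P932050
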