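import Pool.Agent.Lib.P932050.Vec
import Pool.Agent.Lib.P932050.Defect

set_option autoImplicit false

open scoped InnerProductSpace
open Finset

namespace Pool.Agent.Lib.P932050

set_option maxHeartbeats 2000000 in
/-- Elementary numerical consequence. -/
lemma numeric (g D : ℝ) (hg : 0 < g) (hD : 0 < D) :
    ∃ C : ℝ, 0 ≤ C ∧ ∀ (d n n' : ℝ), 1 ≤ d → 1 ≤ n → n' ≤ n → n - n' ≤ D * n / (2 * D * √n) →
      (n' - 1) ^ 2 * g ^ 2
        ≤ d * (2 * g ^ 2 * n' + 4 * g * D + 2 * (2 * D * √n) * D * (6 + 8 * D / g)) →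
      n ≤ 2 * d + C * √d := by
  set A : ℝ := (4 * g * D + 4 * D ^ 2 * (6 + 8 * D / g)) / g ^ 2 with hA
  have hA0 : 0 < A := by positivity
  set B : ℝ := A + 1 / 2 with hB
  have hB0 : 0 < B := by positivity
  refine ⟨2 + B ^ 2 + 2 * B, by positivity, ?_⟩
  intro d n n' hd hn hn' hdel hineq
  obtain ⟨w, hw1, hwn⟩ : ∃ w : ℝ, 1 ≤ w ∧ n = w ^ 2 := by
    refine ⟨√n, ?_, (Real.sq_sqrt (by linarith)).symm⟩
    rw [show (1 : ℝ) = √1 by simp]
    exact Real.sqrt_le_sqrt hn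
  obtain ⟨s, hs1, hsd⟩ : ∃ s : ℝ, 1 ≤ s ∧ d = s ^ 2 := by
    refine ⟨√d, ?_, (Real.sq_sqrt (by linarith)).symm⟩
    rw [show (1 : ℝ) = √1 by simp]
    exact Real.sqrt_le_sqrt hd
  have hsw : √n = w := by rw [hwn]; exact Real.sqrt_sq (by linarith)
  have hss : √d = s := by rw [hsd]; exact Real.sqrt_sq (by linarith)
  rw [hsw] at hdel hineq
  rw [hss]
  have hdel' : n - n' ≤ w / 2 := by
    have : D * n / (2 * D * w) = w / 2 := by
      rw [hwn]; field_simp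
    linarith
  have hn'2 : w ^ 2 / 2 ≤ n' := by nlinarith
  have hA' : 4 * g * D + 2 * (2 * D * w) * D * (6 + 8 * D / g) ≤ g ^ 2 * (A * w) := by
    have h1 : g ^ 2 * (A * w) = (4 * g * D + 4 * D ^ 2 * (6 + 8 * D / g)) * w := by
      rw [hA]; field_simp
    rw [h1]
    have h2 : 0 ≤ 4 * g * D := by positivity
    nlinarith
  have h1 : (n' - 1) ^ 2 ≤ d * (2 * n' + A * w) := by
    have : (n' - 1) ^ 2 * g ^ 2 ≤ (d * (2 * n' + A * w)) * g ^ 2 := by
      refine hineq.trans ?_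
      have hd0 : 0 ≤ d := by linarith
      have := mul_le_mul_of_nonneg_left hA' hd0
      nlinarith
    exact le_of_mul_le_mul_right this (by positivity)
  by_cases hcase : n ≤ 2 * d
  · have : 0 ≤ (2 + B ^ 2 + 2 * B) * s := by positivity
    linarith
  push Not at hcase
  have h2 : n' ≤ 2 + 2 * d + A * w := by
    by_contra hcon
    push Not at hcon
    have h3 : n' * (A * w) < n' * (n' - 2 - 2 * d) := by
      apply mul_lt_mul_of_pos_left (by linarith)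
      have : 0 < w ^ 2 := by positivity
      linarith
    have h4 : n' * (n' - 2 - 2 * d) ≤ d * (A * w) := by nlinarith
    have h5 : w ^ 2 / 2 * (A * w) ≤ n' * (A * w) :=
      mul_le_mul_of_nonneg_right hn'2 (by positivity)
    have h6 : d * (A * w) < w ^ 2 / 2 * (A * w) := by
      apply mul_lt_mul_of_pos_right _ (by positivity)
      rw [hwn] at hcase; linarith
    linarith
  have h7 : w ^ 2 ≤ 2 + 2 * d + B * w := by
    rw [hB]; nlinarith
  have h8 : w ≤ B + 2 * s := by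
    by_contra hcon
    push Not at hcon
    nlinarith
  rw [hwn]
  have h9 : B * w ≤ B * (B + 2 * s) := mul_le_mul_of_nonneg_left h8 hB0.le
  have h10 : 0 ≤ B ^ 2 * (s - 1) := mul_nonneg (sq_nonneg _) (by linarith)
  nlinarith

namespace Sys

variable {d k : ℕ} {ι : Type} {α : ℝ} (Z : Sys d k ι α) [Fintype ι] [DecidableEq ι]

/-- Total defect bound. -/
lemma total_defect (hα0 : 0 < α) (hα : α ≤ 1) (i₀ : ι) (u : EE d)
    (hu : Z.P i₀ u = u) (hu1 : ‖u‖ = 1) (hN : 2 ≤ Fintype.card ι) :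
    ∑ i : {i : ι // i ≠ i₀}, ∑ j : {i : ι // i ≠ i₀},
        (if i = j then 0 else α ^ 3 - ⟪Z.P i u, Z.P j u⟫_ℝ)
      ≤ (4 + 2 * ((k ^ 2 + 1) / α)) * (Fintype.card {i : ι // i ≠ i₀} : ℝ) := by
  have : Nonempty ι := ⟨i₀⟩
  have hlow := Z.norm_Tu_lower hα0 hα i₀ u hu hu1
  have hcard : (Fintype.card {i : ι // i ≠ i₀} : ℝ) = (Fintype.card ι : ℝ) - 1 := by
    rw [Fintype.card_subtype_compl, Fintype.card_subtype_eq]
    rw [Nat.cast_sub (by omega)]; simp
  set n : ℝ := (Fintype.card {i : ι // i ≠ i₀} : ℝ) with hn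
  have hN' : (Fintype.card ι : ℝ) = n + 1 := by linarith
  have hn1 : 1 ≤ n := by
    have : (2 : ℝ) ≤ (Fintype.card ι : ℝ) := by exact_mod_cast hN
    linarith
  have hTu := Z.norm_Tu_sub i₀ u hu hu1
  rw [hN'] at hlow hTu
  simp only [add_sub_cancel_right] at hlow hTu
  have hsum : ∑ i : {i : ι // i ≠ i₀}, ∑ j : {i : ι // i ≠ i₀},
        (if i = j then 0 else α ^ 3 - ⟪Z.P i u, Z.P j u⟫_ℝ)
      = α ^ 3 * n ^ 2 - ‖Z.T u - u‖ ^ 2 + (α ^ 2 - α ^ 3) * n := by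
    have e1 : ∀ i j : {i : ι // i ≠ i₀}, (if i = j then 0 else α ^ 3 - ⟪Z.P i u, Z.P j u⟫_ℝ)
        = α ^ 3 - ⟪Z.P i u, Z.P j u⟫_ℝ + if i = j then (α ^ 2 - α ^ 3) else 0 := by
      intro i j
      by_cases hij : i = j
      · subst hij
        rw [real_inner_self_eq_norm_sq, Z.norm_v hα0.le i₀ u hu hu1]; simp
      · simp [hij]
    simp only [e1, Finset.sum_add_distrib, Finset.sum_sub_distrib, Finset.sum_ite_eq,
      Finset.mem_univ, if_true, Finset.sum_const, Finset.card_univ, nsmul_eq_mul]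
    rw [← Z.sum_v i₀ u hu, ← real_inner_self_eq_norm_sq, sum_inner, ← hn]
    simp only [inner_sum]
    ring
  rw [hsum, hTu]
  have hC : 0 ≤ ((k : ℝ) ^ 2 + 1) / α := by positivity
  have ha2 : α ^ 2 ≤ 1 := pow_le_one₀ hα0.le hα
  have ha3 : 0 ≤ α ^ 3 := by positivity
  nlinarith

end Sys

/-- Quantitative bound for systems. -/
theorem main_sys (k : ℕ) (α : ℝ) (hα0 : 0 < α) (hα1 : α < 1) :
    ∃ C : ℝ, 0 ≤ C ∧ ∀ (d : ℕ) (ι : Type) [Fintype ι], 1 ≤ k → 1 ≤ d → Sys d k ι α →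
      (Fintype.card ι : ℝ) ≤ 2 * d + C * √d := by
  classical
  set D : ℝ := 4 + 2 * (((k : ℝ) ^ 2 + 1) / α) with hD
  have hD0 : 0 < D := by positivity
  set g : ℝ := α ^ 2 - α ^ 3 with hg
  have hg0 : 0 < g := by
    have : g = α ^ 2 * (1 - α) := by rw [hg]; ring
    rw [this]
    have : 0 < 1 - α := by linarith
    positivity
  obtain ⟨C, hC0, hC⟩ := numeric g D hg0 hD0
  refine ⟨C + 1, by linarith, ?_⟩
  intro d ι _ hk hd Z
  have hd1 : (1 : ℝ) ≤ d := by exact_mod_cast hd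
  have hsd : 1 ≤ √(d : ℝ) := by
    rw [show (1 : ℝ) = √1 by simp]
    exact Real.sqrt_le_sqrt hd1
  by_cases hN : Fintype.card ι ≤ 1
  · have : (Fintype.card ι : ℝ) ≤ 1 := by exact_mod_cast hN
    nlinarith
  push Not at hN
  obtain ⟨i₀⟩ : Nonempty ι := by
    rw [← Fintype.card_pos_iff]; omega
  set u : EE d := Z.b i₀ ⟨0, by omega⟩ with hu
  have huP : Z.P i₀ u = u := Z.P_b _ _
  have hu1 : ‖u‖ = 1 := Z.norm_b _ _
  have hdef := Z.total_defect hα0 hα1.le i₀ u huP hu1 hN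
  rw [← hD] at hdef
  have hcard : (Fintype.card {i : ι // i ≠ i₀} : ℝ) = (Fintype.card ι : ℝ) - 1 := by
    rw [Fintype.card_subtype_compl, Fintype.card_subtype_eq]
    rw [Nat.cast_sub (by omega)]; simp
  set n : ℝ := (Fintype.card {i : ι // i ≠ i₀} : ℝ) with hn
  have hn1 : 1 ≤ n := by
    have : (2 : ℝ) ≤ (Fintype.card ι : ℝ) := by exact_mod_cast hN
    linarith
  have hsn : 1 ≤ √n := by
    rw [show (1 : ℝ) = √1 by simp]
    exact Real.sqrt_le_sqrt hn1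
  obtain ⟨n', h1, h2, h3⟩ := vec_ineq' (κ := {i : ι // i ≠ i₀}) (fun i => Z.P i u) (α ^ 2) (α ^ 3)
    hg0 (fun i => by rw [Z.norm_v hα0.le i₀ u huP hu1])
    (fun i j hij => (le_abs_self _).trans (Z.inner_v_le hα0.le i₀ u huP hu1 i j hij))
    (2 * D * √n) D hD0 (by nlinarith) hdef (by linarith)
  have := hC d n n' hd1 hn1 h1 h2 h3
  have : (Fintype.card ι : ℝ) = n + 1 := by linarith
  rw [this]
  nlinarith

end Pool.Agent.Lib.P932050
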