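import Pool.Agent.Lib.P932050.Core

set_option autoImplicit false

open scoped InnerProductSpace
open Finset

namespace Pool.Agent.Lib.P932050

variable {d : ℕ} {κ : Type} [Fintype κ]

/-- Subtracting the mean decreases the sum of squares (inequality in cleared form). -/
lemma sq_center (f : κ → ℝ) :
    ∑ i, (f i - (∑ j, f j) / (Fintype.card κ : ℝ)) ^ 2 ≤ ∑ i, f i ^ 2 := by
  rcases isEmpty_or_nonempty κ with h | h
  · simp
  have hN : (0 : ℝ) < (Fintype.card κ : ℝ) := by exact_mod_cast Fintype.card_pos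
  set n : ℝ := (Fintype.card κ : ℝ) with hn
  set μ : ℝ := (∑ j, f j) / n with hμ
  have hμ' : ∑ j, f j = n * μ := by rw [hμ]; field_simp
  have h1 : ∑ i, (f i - μ) ^ 2 = ∑ i, f i ^ 2 - 2 * μ * ∑ i, f i + n * μ ^ 2 := by
    rw [Finset.mul_sum, ← Finset.sum_sub_distrib]
    have : n * μ ^ 2 = ∑ i : κ, μ ^ 2 := by simp [hn]
    rw [this, ← Finset.sum_add_distrib]
    refine Finset.sum_congr rfl fun i _ => ?_
    ring
  rw [h1, hμ']
  nlinarith [mul_nonneg hN.le (sq_nonneg μ)]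

/-- The trace inequality for the frame operator of a family of vectors. -/
lemma trace_ineq (w : κ → EE d) :
    (∑ i, ‖w i‖ ^ 2) ^ 2 ≤ d * ∑ i, ∑ j, ⟪w i, w j⟫_ℝ ^ 2 := by
  set F : Fin d → Fin d → ℝ := fun a b => ∑ i, w i a * w i b with hF
  have h1 : ∑ i, ‖w i‖ ^ 2 = ∑ a, F a a := by
    simp only [hF, EuclideanSpace.norm_sq_eq, Real.norm_eq_abs, sq_abs]
    rw [Finset.sum_comm]
    refine Finset.sum_congr rfl fun a _ => Finset.sum_congr rfl fun i _ => ?_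
    ring
  have h2 : ∑ i, ∑ j, ⟪w i, w j⟫_ℝ ^ 2 = ∑ a, ∑ b, F a b ^ 2 := by
    have e1 : ∀ i j, ⟪w i, w j⟫_ℝ = ∑ a, w i a * w j a := by
      intro i j
      rw [PiLp.inner_apply]
      refine Finset.sum_congr rfl fun a _ => ?_
      simp [mul_comm]
    have e2 : ∀ i j, ⟪w i, w j⟫_ℝ ^ 2 = ∑ a, ∑ b, (w i a * w i b) * (w j a * w j b) := by
      intro i j
      rw [e1, sq, Finset.sum_mul_sum]
      refine Finset.sum_congr rfl fun a _ => Finset.sum_congr rfl fun b _ => ?_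
      ring
    have e3 : ∀ a b, F a b ^ 2 = ∑ i, ∑ j, (w i a * w i b) * (w j a * w j b) := by
      intro a b
      rw [hF]; simp only
      rw [sq, Finset.sum_mul_sum]
    simp only [e2, e3]
    calc ∑ i, ∑ j, ∑ a, ∑ b, (w i a * w i b) * (w j a * w j b)
        = ∑ i, ∑ a, ∑ j, ∑ b, (w i a * w i b) * (w j a * w j b) :=
          Finset.sum_congr rfl fun i _ => Finset.sum_comm
      _ = ∑ a, ∑ i, ∑ j, ∑ b, (w i a * w i b) * (w j a * w j b) := Finset.sum_comm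
      _ = ∑ a, ∑ i, ∑ b, ∑ j, (w i a * w i b) * (w j a * w j b) :=
          Finset.sum_congr rfl fun a _ => Finset.sum_congr rfl fun i _ => Finset.sum_comm
      _ = ∑ a, ∑ b, ∑ i, ∑ j, (w i a * w i b) * (w j a * w j b) :=
          Finset.sum_congr rfl fun a _ => Finset.sum_comm
  rw [h1, h2]
  have h3 : (∑ a, F a a) ^ 2 ≤ d * ∑ a, F a a ^ 2 := by
    have := Finset.sum_mul_sq_le_sq_mul_sq (Finset.univ : Finset (Fin d)) (fun _ => (1 : ℝ))
      (fun a => F a a)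
    simpa using this
  refine h3.trans ?_
  refine mul_le_mul_of_nonneg_left ?_ (Nat.cast_nonneg d)
  refine Finset.sum_le_sum fun a _ => ?_
  exact Finset.single_le_sum (f := fun b => F a b ^ 2) (fun b _ => sq_nonneg _) (Finset.mem_univ a)

/-- The rank inequality for the shifted Gram matrix. -/
lemma rank_ineq (v : κ → EE d) (β : ℝ) :
    ((Fintype.card κ : ℝ) * ∑ i, ‖v i‖ ^ 2 - ‖∑ i, v i‖ ^ 2) ^ 2
      ≤ (Fintype.card κ : ℝ) ^ 2 * (d * ∑ i, ∑ j, (⟪v i, v j⟫_ℝ - β) ^ 2) := by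
  rcases isEmpty_or_nonempty κ with h | h
  · simp
  have hN : (0 : ℝ) < (Fintype.card κ : ℝ) := by exact_mod_cast Fintype.card_pos
  set n : ℝ := (Fintype.card κ : ℝ) with hn
  obtain ⟨vb, hsum⟩ : ∃ vb : EE d, ∑ i, v i = n • vb := by
    refine ⟨(1 / n) • ∑ i, v i, ?_⟩
    rw [smul_smul]
    rw [mul_one_div_cancel hN.ne', one_smul]
  set w : κ → EE d := fun i => v i - vb with hw
  have h1 : n * ∑ i, ‖w i‖ ^ 2 = n * ∑ i, ‖v i‖ ^ 2 - ‖∑ i, v i‖ ^ 2 := by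
    have e1 : ∀ i, ‖w i‖ ^ 2 = ‖v i‖ ^ 2 - 2 * ⟪v i, vb⟫_ℝ + ‖vb‖ ^ 2 := by
      intro i
      rw [hw]; simp only
      rw [norm_sub_sq_real]
    simp only [e1, Finset.sum_add_distrib, Finset.sum_sub_distrib, ← Finset.mul_sum]
    rw [← sum_inner, hsum]
    rw [inner_smul_left, real_inner_self_eq_norm_sq, norm_smul]
    simp only [conj_trivial, Finset.sum_const, Finset.card_univ, nsmul_eq_mul, Real.norm_eq_abs,
      mul_pow, sq_abs]
    rw [← hn]; ring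
  rw [← h1]
  set Y : κ → κ → ℝ := fun i j => ⟪v i, v j⟫_ℝ - β with hY
  have h2 : ∑ i, ∑ j, ⟪w i, w j⟫_ℝ ^ 2 ≤ ∑ i, ∑ j, Y i j ^ 2 := by
    set Z : κ → κ → ℝ := fun i j => Y i j - (∑ j', Y i j') / n with hZ
    have e1 : ∑ i, ∑ j, Z i j ^ 2 ≤ ∑ i, ∑ j, Y i j ^ 2 :=
      Finset.sum_le_sum fun i _ => sq_center (fun j => Y i j)
    have e2 : ∑ j, ∑ i, (Z i j - (∑ i', Z i' j) / n) ^ 2 ≤ ∑ j, ∑ i, Z i j ^ 2 :=
      Finset.sum_le_sum fun j _ => sq_center (fun i => Z i j)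
    have e3 : ∀ i j, ⟪w i, w j⟫_ℝ = Z i j - (∑ i', Z i' j) / n := by
      intro i j
      have f1 : ∀ i, ∑ j', Y i j' = n * ⟪v i, vb⟫_ℝ - n * β := by
        intro i
        rw [hY]; simp only
        rw [Finset.sum_sub_distrib, ← inner_sum, hsum, inner_smul_right]
        simp [hn]
      have f1' : ∀ i, (∑ j', Y i j') / n = ⟪v i, vb⟫_ℝ - β := by
        intro i
        rw [f1]; field_simp
      have f2 : ∀ i j, Z i j = ⟪v i, v j⟫_ℝ - ⟪v i, vb⟫_ℝ := by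
        intro i j
        rw [hZ]; simp only
        rw [f1', hY]; simp only; ring
      have f3 : (∑ i', Z i' j) / n = ⟪vb, v j⟫_ℝ - ⟪vb, vb⟫_ℝ := by
        simp only [f2]
        rw [Finset.sum_sub_distrib, ← sum_inner, ← sum_inner, hsum, inner_smul_left,
          inner_smul_left]
        simp only [conj_trivial]
        field_simp
      rw [f2, f3, hw]; simp only
      rw [inner_sub_left, inner_sub_right, inner_sub_right]
    calc ∑ i, ∑ j, ⟪w i, w j⟫_ℝ ^ 2 = ∑ i, ∑ j, (Z i j - (∑ i', Z i' j) / n) ^ 2 := by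
          simp only [e3]
      _ = ∑ j, ∑ i, (Z i j - (∑ i', Z i' j) / n) ^ 2 := Finset.sum_comm
      _ ≤ ∑ j, ∑ i, Z i j ^ 2 := e2
      _ = ∑ i, ∑ j, Z i j ^ 2 := Finset.sum_comm
      _ ≤ _ := e1
  have h3 := trace_ineq w
  rw [mul_pow]
  refine mul_le_mul_of_nonneg_left ?_ (sq_nonneg n)
  exact h3.trans (mul_le_mul_of_nonneg_left h2 (Nat.cast_nonneg d))

end Pool.Agent.Lib.P932050
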