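import Pool.Agent.Lib.P932050.Rank
import Pool.Agent.Lib.P932050.Local

set_option autoImplicit false

open scoped InnerProductSpace
open Finset

namespace Pool.Agent.Lib.P932050

/-- Combination of the local inequality and the rank inequality. -/
lemma vec_ineq {d : ℕ} {κ : Type} [Fintype κ] [DecidableEq κ] (v : κ → EE d) (a β : ℝ)
    (hg : 0 < a - β) (hv : ∀ i, ‖v i‖ ^ 2 = a) (hle : ∀ i j, i ≠ j → ⟪v i, v j⟫_ℝ ≤ β)
    (K D : ℝ) (hK0 : 0 ≤ K) (hD0 : 0 ≤ D)
    (hK : ∀ i, ∑ j, (if i = j then 0 else β - ⟪v i, v j⟫_ℝ) ≤ K)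
    (hD : ∑ i, ∑ j, (if i = j then 0 else β - ⟪v i, v j⟫_ℝ) ≤ D * (Fintype.card κ : ℝ)) :
    ((Fintype.card κ : ℝ) - 1) ^ 2 * (a - β) ^ 2
      ≤ d * (2 * (a - β) ^ 2 * (Fintype.card κ : ℝ) + 2 * (a - β) * D
        + K * D * (6 + 4 * D / (a - β))) ∨ (Fintype.card κ : ℝ) = 0 := by
  rcases isEmpty_or_nonempty κ with h | h
  · right; simp
  left
  have hN : (1 : ℝ) ≤ (Fintype.card κ : ℝ) := by exact_mod_cast Fintype.card_pos
  set n : ℝ := (Fintype.card κ : ℝ) with hn
  set g : ℝ := a - β with hgdef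
  set δ : κ → κ → ℝ := fun i j => if i = j then 0 else β - ⟪v i, v j⟫_ℝ with hδ
  have hinner : ∀ i j, ⟪v i, v j⟫_ℝ = β - δ i j + if i = j then g else 0 := by
    intro i j
    by_cases hij : i = j
    · subst hij
      rw [real_inner_self_eq_norm_sq, hv]; simp [hδ, hgdef]
    · simp [hδ, hij]
  have hs : ∀ i j, δ i j = δ j i := by
    intro i j
    by_cases hij : i = j
    · subst hij; rfl
    · simp only [hδ, hij, if_false, Ne.symm hij, real_inner_comm]
  have hd : ∀ i, δ i i = 0 := by intro i; simp [hδ]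
  have hnn : ∀ i j, 0 ≤ δ i j := by
    intro i j
    by_cases hij : i = j
    · simp [hδ, hij]
    · simp only [hδ, hij, if_false]; linarith [hle i j hij]
  have hpsd : ∀ x : κ → ℝ, ∑ i, x i = 0 → 0 ≤ Q g δ x := by
    intro x hx
    have h1 : 0 ≤ ‖∑ i, x i • v i‖ ^ 2 := sq_nonneg _
    have h2 : ‖∑ i, x i • v i‖ ^ 2 = ∑ i, ∑ j, x i * x j * ⟪v i, v j⟫_ℝ := by
      rw [← real_inner_self_eq_norm_sq, sum_inner]
      refine Finset.sum_congr rfl fun i _ => ?_
      rw [inner_sum]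
      refine Finset.sum_congr rfl fun j _ => ?_
      rw [inner_smul_left, inner_smul_right]
      simp only [conj_trivial]; ring
    have h3 : ∑ i, ∑ j, x i * x j * ⟪v i, v j⟫_ℝ = Q g δ x + β * (∑ i, x i) ^ 2 := by
      unfold Q
      have e1 : ∀ i j, x i * x j * ⟪v i, v j⟫_ℝ
          = β * (x i * x j) - x i * x j * δ i j + if i = j then g * x i ^ 2 else 0 := by
        intro i j
        rw [hinner]
        by_cases hij : i = j
        · subst hij; simp; ring
        · simp [hij]; ring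
      simp only [e1, Finset.sum_add_distrib, Finset.sum_sub_distrib, Finset.sum_ite_eq,
        Finset.mem_univ, if_true, ← Finset.mul_sum]
      rw [sq, Finset.sum_mul_sum]
      simp only [Finset.mul_sum]; ring
    rw [h2, h3, hx] at h1
    linarith
  have hloc := local_ineq δ hs hd hnn g hg hpsd K D hK0 hD0 hK hD
  have hrank := rank_ineq v β
  set R1 : ℝ := ∑ i, ∑ j, δ i j with hR1
  have hR1nn : 0 ≤ R1 := Finset.sum_nonneg fun i _ => Finset.sum_nonneg fun j _ => hnn i j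
  have e1 : ∑ i, ∑ j, (⟪v i, v j⟫_ℝ - β) ^ 2 = g ^ 2 * n + ∑ i, ∑ j, δ i j ^ 2 := by
    have : ∀ i j, (⟪v i, v j⟫_ℝ - β) ^ 2 = (if i = j then g ^ 2 else 0) + δ i j ^ 2 := by
      intro i j
      rw [hinner]
      by_cases hij : i = j
      · subst hij; simp [hd]
      · simp [hij]
    simp only [this, Finset.sum_add_distrib, Finset.sum_ite_eq, Finset.mem_univ, if_true]
    simp [hn, mul_comm]
  have e2 : ‖∑ i, v i‖ ^ 2 = β * n ^ 2 - R1 + g * n := by
    rw [← real_inner_self_eq_norm_sq, sum_inner]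
    simp only [inner_sum, hinner, Finset.sum_add_distrib, Finset.sum_sub_distrib,
      Finset.sum_ite_eq, Finset.mem_univ, if_true, Finset.sum_const, Finset.card_univ,
      nsmul_eq_mul]
    rw [← hn, ← hR1]; ring
  have e3 : ∑ i, ‖v i‖ ^ 2 = n * (g + β) := by
    simp only [hv]; simp [hn, hgdef]
  rw [e1, e2, e3, ← hn] at hrank
  have e4 : n * (n * (g + β)) - (β * n ^ 2 - R1 + g * n) = g * n * (n - 1) + R1 := by ring
  rw [e4] at hrank
  have e5 : (g * n * (n - 1)) ^ 2 ≤ (g * n * (n - 1) + R1) ^ 2 := by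
    have : 0 ≤ g * n * (n - 1) := by
      apply mul_nonneg (mul_nonneg hg.le (by linarith)) (by linarith)
    exact pow_le_pow_left₀ this (by linarith) 2
  have e6 : n ^ 2 * ((n - 1) ^ 2 * g ^ 2) ≤ n ^ 2 * (d * (g ^ 2 * n + ∑ i, ∑ j, δ i j ^ 2)) := by
    calc n ^ 2 * ((n - 1) ^ 2 * g ^ 2) = (g * n * (n - 1)) ^ 2 := by ring
      _ ≤ _ := e5.trans hrank
  have e7 := le_of_mul_le_mul_left e6 (by positivity)
  refine e7.trans ?_
  refine mul_le_mul_of_nonneg_left ?_ (Nat.cast_nonneg d)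
  linarith

/-- Deletion of the rows of large sum. -/
lemma vec_ineq' {d : ℕ} {κ : Type} [Fintype κ] [DecidableEq κ] (v : κ → EE d) (a β : ℝ)
    (hg : 0 < a - β) (hv : ∀ i, ‖v i‖ ^ 2 = a) (hle : ∀ i j, i ≠ j → ⟪v i, v j⟫_ℝ ≤ β)
    (K D : ℝ) (hD0 : 0 < D) (hKD : 2 * D ≤ K)
    (hD : ∑ i, ∑ j, (if i = j then 0 else β - ⟪v i, v j⟫_ℝ) ≤ D * (Fintype.card κ : ℝ))
    (hn0 : 0 < (Fintype.card κ : ℝ)) :
    ∃ n' : ℝ, n' ≤ (Fintype.card κ : ℝ) ∧ (Fintype.card κ : ℝ) - n' ≤ D * (Fintype.card κ : ℝ) / K ∧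
      (n' - 1) ^ 2 * (a - β) ^ 2
      ≤ d * (2 * (a - β) ^ 2 * n' + 4 * (a - β) * D + 2 * K * D * (6 + 8 * D / (a - β))) := by
  set n : ℝ := (Fintype.card κ : ℝ) with hn
  set g : ℝ := a - β with hgdef
  set δ : κ → κ → ℝ := fun i j => if i = j then 0 else β - ⟪v i, v j⟫_ℝ with hδ
  have hnn : ∀ i j, 0 ≤ δ i j := by
    intro i j
    by_cases hij : i = j
    · simp [hδ, hij]
    · simp only [hδ, hij, if_false]; linarith [hle i j hij]
  have hK0 : 0 < K := by linarith
  set L : Finset κ := Finset.univ.filter (fun i => ∑ j, δ i j ≤ K) with hL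
  have hcard : (Lᶜ.card : ℝ) * K ≤ D * n := by
    refine le_trans ?_ hD
    have : (Lᶜ.card : ℝ) * K = ∑ i ∈ Lᶜ, K := by simp
    rw [this]
    have h1 : ∑ i ∈ Lᶜ, K ≤ ∑ i ∈ Lᶜ, ∑ j, δ i j := by
      refine Finset.sum_le_sum fun i hi => ?_
      simp only [hL, Finset.mem_compl, Finset.mem_filter, Finset.mem_univ, true_and, not_le] at hi
      exact hi.le
    refine h1.trans ?_
    exact Finset.sum_le_sum_of_subset_of_nonneg (Finset.subset_univ _)
      (fun i _ _ => Finset.sum_nonneg fun j _ => hnn i j)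
  have hcc : (L.card : ℝ) + (Lᶜ.card : ℝ) = n := by
    rw [hn]; exact_mod_cast Finset.card_add_card_compl L
  have hdel : n - (L.card : ℝ) ≤ D * n / K := by
    rw [le_div_iff₀ hK0]
    have : n - (L.card : ℝ) = (Lᶜ.card : ℝ) := by linarith
    rw [this]; exact hcard
  have hhalf : D * n / K ≤ n / 2 := by
    rw [div_le_iff₀ hK0]
    nlinarith
  refine ⟨(L.card : ℝ), ?_, hdel, ?_⟩
  · have : (0 : ℝ) ≤ (Lᶜ.card : ℝ) := Nat.cast_nonneg _
    linarith
  have hLpos : 0 < (L.card : ℝ) := by linarith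
  have hcardL : (Fintype.card {i // i ∈ L} : ℝ) = (L.card : ℝ) := by simp
  have hmain := vec_ineq (κ := {i // i ∈ L}) (fun i => v i) a β hg (fun i => hv i)
    (fun i j hij => hle i j (fun h => hij (Subtype.ext h))) K (2 * D) hK0.le (by linarith)
    (by
      intro i
      have h1 : ∑ j : {i // i ∈ L}, (if i = j then 0 else β - ⟪v i, v j⟫_ℝ)
          = ∑ j : {i // i ∈ L}, δ i j := by
        refine Finset.sum_congr rfl fun j _ => ?_
        simp only [hδ, Subtype.ext_iff]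
      rw [h1]
      have h2 : ∑ j : {i // i ∈ L}, δ i j = ∑ j ∈ L, δ i j := by
        rw [← Finset.sum_coe_sort L (fun j => δ i j)]
      rw [h2]
      have h3 : ∑ j ∈ L, δ i j ≤ ∑ j, δ i j :=
        Finset.sum_le_sum_of_subset_of_nonneg (Finset.subset_univ _) (fun j _ _ => hnn i j)
      refine h3.trans ?_
      have := i.2
      simp only [hL, Finset.mem_filter, Finset.mem_univ, true_and] at this
      exact this)
    (by
      have h1 : ∑ i : {i // i ∈ L}, ∑ j : {i // i ∈ L}, (if i = j then 0 else β - ⟪v i, v j⟫_ℝ)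
          = ∑ i : {i // i ∈ L}, ∑ j : {i // i ∈ L}, δ i j := by
        refine Finset.sum_congr rfl fun i _ => Finset.sum_congr rfl fun j _ => ?_
        simp only [hδ, Subtype.ext_iff]
      rw [h1]
      have h2 : ∑ i : {i // i ∈ L}, ∑ j : {i // i ∈ L}, δ i j = ∑ i ∈ L, ∑ j ∈ L, δ i j := by
        rw [← Finset.sum_coe_sort L (fun i => ∑ j ∈ L, δ i j)]
        refine Finset.sum_congr rfl fun i _ => ?_
        rw [← Finset.sum_coe_sort L (fun j => δ i j)]
      rw [h2, hcardL]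
      have h3 : ∑ i ∈ L, ∑ j ∈ L, δ i j ≤ ∑ i, ∑ j, δ i j := by
        refine (Finset.sum_le_sum fun i _ =>
          Finset.sum_le_sum_of_subset_of_nonneg (Finset.subset_univ L) (fun j _ _ => hnn i j)).trans ?_
        exact Finset.sum_le_sum_of_subset_of_nonneg (Finset.subset_univ L)
          (fun i _ _ => Finset.sum_nonneg fun j _ => hnn i j)
      refine (h3.trans hD).trans ?_
      nlinarith)
  rcases hmain with hmain | hmain
  · rw [hcardL] at hmain
    refine hmain.trans (le_of_eq ?_)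
    ring
  · rw [hcardL] at hmain; linarith

end Pool.Agent.Lib.P932050
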